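import Pool.Agent.L7h38.IW.Stm

/-!
# Project IW of helper38 (MP_658dbf_an): part LIM
-/

set_option autoImplicit false

open MeasureTheory Set Filter Topology Polynomial Pool.Agent.L7h38.IW

namespace Pool.Agent.L7h77.IW

/-- `z = e^{iθ}` -/
noncomputable def zz (θ : ℝ) : ℂ := Complex.exp (θ * Complex.I)

/-- the scalar product with `z^n` -/
noncomputable def IP (μ : ℝ) (Q : ℤ[X]) (n : ℕ) : ℝ :=
  ∫ θ in (-Real.pi)..Real.pi, AA θ ^ μ * (ev Q θ * (starRingEnd ℂ) (zz θ ^ n)).re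

theorem cont_zz : Continuous zz := by
  unfold zz
  fun_prop

theorem norm_zz (θ : ℝ) : ‖zz θ‖ = 1 := by
  unfold zz
  exact Complex.norm_exp_ofReal_mul_I θ

theorem ev_eq (Q : ℤ[X]) (θ : ℝ) : ev Q θ = Polynomial.aeval (zz θ) Q := rfl

theorem cont_ev (Q : ℤ[X]) : Continuous (ev Q) := by
  have h : ev Q = fun θ => Polynomial.aeval (zz θ) Q := rfl
  rw [h]
  simp only [Polynomial.aeval_eq_sum_range]
  refine continuous_finsetSum _ fun i _ => ?_
  exact (cont_zz.pow i).const_smul _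

theorem cont_AA {μ : ℝ} (hμ : 0 ≤ μ) : Continuous fun θ => AA θ ^ μ := by
  unfold AA
  refine Continuous.rpow_const (by fun_prop) fun θ => Or.inr hμ

theorem ev_add_mul (Q : ℤ[X]) (c : ℤ) (n : ℕ) (θ : ℝ) :
    ev (Q + C c * X ^ n) θ = ev Q θ + c * zz θ ^ n := by
  rw [ev_eq, ev_eq]
  simp

theorem zz_mul (a n : ℕ) (θ : ℝ) :
    (zz θ ^ a * (starRingEnd ℂ) (zz θ ^ n)).re = Real.cos (((a - n) + (n - a) : ℕ) * θ) := by
  have h1 : zz θ ^ a * (starRingEnd ℂ) (zz θ ^ n) =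
      Complex.exp ((((a : ℝ) - n) * θ : ℝ) * Complex.I) := by
    unfold zz
    rw [← Complex.exp_nat_mul, ← Complex.exp_nat_mul, ← Complex.exp_conj, ← Complex.exp_add]
    congr 1
    simp only [map_mul, Complex.conj_ofReal, Complex.conj_I, map_natCast]
    push_cast
    ring
  rw [h1, Complex.exp_ofReal_mul_I_re]
  rcases le_total a n with h | h
  · rw [Nat.sub_eq_zero_of_le h, zero_add, Nat.cast_sub h, ← Real.cos_neg]
    congr 1
    ring
  · rw [Nat.sub_eq_zero_of_le h, add_zero, Nat.cast_sub h]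

theorem cont_ip {μ : ℝ} (hμ : 0 ≤ μ) (Q : ℤ[X]) (n : ℕ) :
    Continuous fun θ => AA θ ^ μ * (ev Q θ * (starRingEnd ℂ) (zz θ ^ n)).re := by
  refine (cont_AA hμ).mul (Complex.continuous_re.comp ((cont_ev Q).mul ?_))
  exact Complex.continuous_conj.comp (cont_zz.pow n)

theorem cont_cc {μ : ℝ} (hμ : 0 ≤ μ) (k : ℕ) :
    Continuous fun θ => AA θ ^ μ * Real.cos (k * θ) := by
  refine (cont_AA hμ).mul ?_
  fun_prop

theorem IP_add {μ : ℝ} (hμ : 0 ≤ μ) (Q : ℤ[X]) (c : ℤ) (a n : ℕ) :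
    IP μ (Q + C c * X ^ a) n = IP μ Q n + c * cc μ ((a - n) + (n - a)) := by
  unfold IP cc
  rw [← intervalIntegral.integral_const_mul, ← intervalIntegral.integral_add
    ((cont_ip hμ Q n).intervalIntegrable _ _)
    (((cont_cc hμ _).const_mul _).intervalIntegrable _ _)]
  refine intervalIntegral.integral_congr fun θ _ => ?_
  show AA θ ^ μ * (ev (Q + C c * X ^ a) θ * (starRingEnd ℂ) (zz θ ^ n)).re = _
  rw [ev_add_mul, add_mul, Complex.add_re, mul_assoc, ← zz_mul, ← Complex.ofReal_intCast,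
    Complex.re_ofReal_mul]
  ring

theorem JJ_add {μ : ℝ} (hμ : 0 ≤ μ) (Q : ℤ[X]) (c : ℤ) (n : ℕ) :
    JJ μ (Q + C c * X ^ n) = JJ μ Q + 2 * c * IP μ Q n + c ^ 2 * cc μ 0 := by
  unfold IP cc JJ
  have hJ : Continuous fun θ => AA θ ^ μ * ‖ev Q θ‖ ^ 2 :=
    (cont_AA hμ).mul ((cont_ev Q).norm.pow 2)
  have hI : Continuous fun θ => 2 * (c : ℝ) * (AA θ ^ μ * (ev Q θ * (starRingEnd ℂ) (zz θ ^ n)).re) :=
    (cont_ip hμ Q n).const_mul _
  have hJI : Continuous fun θ => AA θ ^ μ * ‖ev Q θ‖ ^ 2 +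
      2 * (c : ℝ) * (AA θ ^ μ * (ev Q θ * (starRingEnd ℂ) (zz θ ^ n)).re) := hJ.add hI
  rw [← intervalIntegral.integral_const_mul, ← intervalIntegral.integral_const_mul,
    ← intervalIntegral.integral_add (hJ.intervalIntegrable _ _) (hI.intervalIntegrable _ _),
    ← intervalIntegral.integral_add (hJI.intervalIntegrable _ _)
      (((cont_cc hμ _).const_mul _).intervalIntegrable _ _)]
  refine intervalIntegral.integral_congr fun θ _ => ?_
  show AA θ ^ μ * ‖ev (Q + C c * X ^ n) θ‖ ^ 2 = AA θ ^ μ * ‖ev Q θ‖ ^ 2 +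
    2 * c * (AA θ ^ μ * (ev Q θ * (starRingEnd ℂ) (zz θ ^ n)).re) +
      c ^ 2 * (AA θ ^ μ * Real.cos ((0 : ℕ) * θ))
  have h1 : ‖ev (Q + C c * X ^ n) θ‖ ^ 2 = ‖ev Q θ‖ ^ 2 +
      2 * c * (ev Q θ * (starRingEnd ℂ) (zz θ ^ n)).re + c ^ 2 := by
    rw [ev_add_mul, Complex.sq_norm, Complex.sq_norm, Complex.normSq_add]
    have h2 : Complex.normSq ((c : ℂ) * zz θ ^ n) = (c : ℝ) ^ 2 := by
      rw [← Complex.sq_norm, norm_mul, norm_pow, norm_zz, one_pow, mul_one,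
        ← Complex.ofReal_intCast, Complex.norm_real, Real.norm_eq_abs, sq_abs]
    have h3 : (ev Q θ * (starRingEnd ℂ) ((c : ℂ) * zz θ ^ n)).re =
        c * (ev Q θ * (starRingEnd ℂ) (zz θ ^ n)).re := by
      rw [map_mul, mul_left_comm, ← Complex.ofReal_intCast, Complex.conj_ofReal,
        Complex.re_ofReal_mul]
    rw [h2, h3]
    ring
  rw [h1]
  simp only [Nat.cast_zero, zero_mul, Real.cos_zero]
  ring

/-- the part of `TQ` without the last term -/
noncomputable def RQ (m : ℕ) (p : ℕ → ℕ) : ℤ[X] :=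
  X ^ p 0 + ∑ i ∈ Finset.Ico 1 m, (-1) ^ i * (X ^ p i + X ^ (p i + 1))

theorem TQ_eq (m : ℕ) (p : ℕ → ℕ) : TQ m p = RQ m p + C ((-1) ^ m) * X ^ p m := by
  unfold TQ RQ
  simp

theorem RQ_one (p : ℕ → ℕ) : RQ 1 p = 0 + C 1 * X ^ p 0 := by
  unfold RQ
  simp

theorem RQ_succ {m : ℕ} (hm : 1 ≤ m) (p : ℕ → ℕ) :
    RQ (m + 1) p = RQ m p + C ((-1) ^ m) * X ^ p m + C ((-1) ^ m) * X ^ (p m + 1) := by
  unfold RQ
  rw [Finset.sum_Ico_succ_top hm]
  simp
  ring

theorem ev_zero (θ : ℝ) : ev 0 θ = 0 := by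
  rw [ev_eq]
  simp

theorem IP_zero (μ : ℝ) (n : ℕ) : IP μ 0 n = 0 := by
  unfold IP
  simp [ev_zero]

theorem JJ_zero (μ : ℝ) : JJ μ 0 = 0 := by
  unfold JJ
  simp [ev_zero]

theorem s_LIM (h : S_RL) : S_LIM := by
  intro m hm μ hμ ε hε
  set δ : ℝ := ε / (8 * m ^ 2 + 4 * m + 1) with hδ
  have hden : (0 : ℝ) < 8 * m ^ 2 + 4 * m + 1 := by positivity
  have hδ0 : 0 < δ := div_pos hε hden
  obtain ⟨K₀, hK₀⟩ := Metric.tendsto_atTop.1 (h μ hμ) δ hδ0
  have hcc : ∀ k, K₀ ≤ k → |cc μ k| ≤ δ := by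
    intro k hk
    have := hK₀ k hk
    rw [Real.dist_eq, sub_zero] at this
    exact this.le
  refine ⟨K₀ + 1, fun p hp => ?_⟩
  have hsq : ∀ k : ℕ, (((-1 : ℤ) ^ k : ℤ) : ℝ) ^ 2 = 1 := by
    intro k
    push_cast
    rw [← pow_mul, mul_comm, pow_mul]
    simp
  have hab : ∀ k : ℕ, |(((-1 : ℤ) ^ k : ℤ) : ℝ)| = 1 := by
    intro k
    push_cast
    rw [abs_pow]
    simp
  -- scalar products
  have hIP : ∀ k : ℕ, 1 ≤ k → k ≤ m → ∀ n : ℕ, p (k - 1) + (K₀ + 1) ≤ n →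
      |IP μ (RQ k p) n| ≤ 2 * k * δ := by
    intro k hk
    induction k, hk using Nat.le_induction with
    | base =>
      intro _ n hn
      rw [RQ_one, IP_add hμ, IP_zero, zero_add, Int.cast_one, one_mul]
      have h1 := hcc ((p 0 - n) + (n - p 0)) (by simp only [Nat.sub_self] at hn; omega)
      push_cast
      linarith
    | succ k hk ih =>
      intro hkm n hn
      rw [Nat.add_sub_cancel] at hn
      have hpk := hp (k - 1) (by omega)
      rw [Nat.sub_add_cancel hk] at hpk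
      have h0 := ih (by omega) n (by omega)
      have h1 := hcc ((p k - n) + (n - p k)) (by omega)
      have h2 := hcc ((p k + 1 - n) + (n - (p k + 1))) (by omega)
      rw [RQ_succ hk, IP_add hμ, IP_add hμ]
      have h3 : |(((-1 : ℤ) ^ k : ℤ) : ℝ) * cc μ ((p k - n) + (n - p k))| ≤ δ := by
        rw [abs_mul, hab, one_mul]
        exact h1
      have h4 : |(((-1 : ℤ) ^ k : ℤ) : ℝ) * cc μ ((p k + 1 - n) + (n - (p k + 1)))| ≤ δ := by
        rw [abs_mul, hab, one_mul]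
        exact h2
      refine (abs_add_three _ _ _).trans ?_
      have h5 : 2 * ((k + 1 : ℕ) : ℝ) * δ = 2 * k * δ + 2 * δ := by
        push_cast
        ring
      rw [h5]
      linarith
  -- norms
  have hJJ : ∀ k : ℕ, 1 ≤ k → k ≤ m →
      JJ μ (RQ k p) ≤ (2 * k - 1) * cc μ 0 + 2 * ((k : ℝ) - 1) * cc μ 1 + 8 * k ^ 2 * δ := by
    intro k hk
    induction k, hk using Nat.le_induction with
    | base =>
      intro _
      rw [RQ_one, JJ_add hμ, JJ_zero, IP_zero]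
      push_cast
      nlinarith
    | succ k hk ih =>
      intro hkm
      have hpk := hp (k - 1) (by omega)
      rw [Nat.sub_add_cancel hk] at hpk
      have h0 := ih (by omega)
      have h1 := hIP k hk (by omega) (p k) hpk
      have h2 := hIP k hk (by omega) (p k + 1) (by omega)
      have h3 : (((-1 : ℤ) ^ k : ℤ) : ℝ) * IP μ (RQ k p) (p k) ≤ 2 * k * δ := by
        refine (le_abs_self _).trans ?_
        rw [abs_mul, hab, one_mul]
        exact h1
      have h4 : (((-1 : ℤ) ^ k : ℤ) : ℝ) * IP μ (RQ k p) (p k + 1) ≤ 2 * k * δ := by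
        refine (le_abs_self _).trans ?_
        rw [abs_mul, hab, one_mul]
        exact h2
      rw [RQ_succ hk, JJ_add hμ, JJ_add hμ, IP_add hμ]
      have h5 : p k - (p k + 1) + (p k + 1 - p k) = 1 := by omega
      rw [h5]
      have h6 := hsq k
      have h7 : (((-1 : ℤ) ^ k : ℤ) : ℝ) * ((((-1 : ℤ) ^ k : ℤ) : ℝ) * cc μ 1) = cc μ 1 := by
        rw [← mul_assoc, ← sq, h6, one_mul]
      have hk1 : (1 : ℝ) ≤ k := by exact_mod_cast hk
      rw [h6]
      set u : ℝ := (((-1 : ℤ) ^ k : ℤ) : ℝ) with hu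
      have h8 : 2 * u * (IP μ (RQ k p) (p k + 1) + u * cc μ 1) =
          2 * (u * IP μ (RQ k p) (p k + 1)) + 2 * cc μ 1 := by
        have h9 : 2 * u * (IP μ (RQ k p) (p k + 1) + u * cc μ 1) =
            2 * (u * IP μ (RQ k p) (p k + 1)) + 2 * (u * (u * cc μ 1)) := by ring
        rw [h9, h7]
      rw [h8]
      push_cast
      nlinarith
  have hpm := hp (m - 1) (by omega)
  rw [Nat.sub_add_cancel hm] at hpm
  have h1 := hIP m hm le_rfl (p m) hpm
  have h2 := hJJ m hm le_rfl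
  have h3 : (((-1 : ℤ) ^ m : ℤ) : ℝ) * IP μ (RQ m p) (p m) ≤ 2 * m * δ := by
    refine (le_abs_self _).trans ?_
    rw [abs_mul, hab, one_mul]
    exact h1
  rw [TQ_eq, JJ_add hμ, hsq]
  have h4 : (8 * (m : ℝ) ^ 2 + 4 * m) * δ ≤ ε := by
    have h5 : ε = (8 * (m : ℝ) ^ 2 + 4 * m + 1) * δ := by
      rw [hδ]
      field_simp
    rw [h5]
    nlinarith
  set u : ℝ := (((-1 : ℤ) ^ m : ℤ) : ℝ) with hu
  have h6 : 2 * u * IP μ (RQ m p) (p m) = 2 * (u * IP μ (RQ m p) (p m)) := by ring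
  rw [h6]
  linarith

end Pool.Agent.L7h77.IW
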